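import Pool.Agent.W523.LV.Stmts
import Pool.Agent.H993R3.BC.Theta
import Pool.Agent.H335R3.ETSelB
import Pool.Agent.H589R3.BCKer1
import Pool.Agent.H553R3.BCKer2

/-!
# Task LV-SEL of the project LV: adaptation of `Pool/Agent/H993R3/BC/Theta.lean`
-/

set_option autoImplicit false

open Finset MeasureTheory

namespace Pool.Agent.W177.LV

open Pool.Agent.H96R3.BC (vv UU CC cf Bf KK TaskKer1 TaskKer2)
open Pool.Agent.H993R3.BC
open Pool.Agent.W523.LV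
open Pool.Agent.H13R3.EM (Sel)

/-- the Laplace transform of the contribution of a cell, with the boundary masses -/
theorem lapB2 (h1 : TaskKer1) (h2 : TaskKer2) (Q j₀ : ℕ) (s y : ℕ → ℝ) (f : ℝ → ℝ)
    (hf : Continuous f) (j : ℕ) (t : ℝ) (ht : 0 < t) :
    IntegrableOn (fun v : ℝ => Real.exp (-(v * t)) * Bf2 Q j₀ s y f j v) (Set.Ioi 0) ∧
    ∫ v in Set.Ioi (0:ℝ), Real.exp (-(v * t)) * Bf2 Q j₀ s y f j v =
      (∑ n ∈ CC Q j, E Q j₀ y t⁻¹ n -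
        (∫ u in (UU j₀ j)..(UU j₀ (j + 1)), f u * Real.exp (-(u * t⁻¹))) +
        (BB Q j₀ s j * Real.exp (-(UU j₀ j * t⁻¹)) -
          BB Q j₀ s (j + 1) * Real.exp (-(UU j₀ (j + 1) * t⁻¹)))) / t ^ (4 * Q + 4) := by
  have hk : 1 ≤ 4 * Q + 4 := by omega
  obtain ⟨hi, he⟩ := lapB h1 h2 Q j₀ y f hf j t ht
  have hU : ∀ i : ℕ, IntegrableOn (fun v : ℝ => BB Q j₀ s i *
      (Real.exp (-(v * t)) * KK (4 * Q + 4) (UU j₀ i) v)) (Set.Ioi 0) := fun i =>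
    Integrable.const_mul ((h1 (4 * Q + 4) hk).2.2 (UU j₀ i) t (UU_nonneg _ _) ht).1 _
  have hUe : ∀ i : ℕ, ∫ v in Set.Ioi (0:ℝ), BB Q j₀ s i *
      (Real.exp (-(v * t)) * KK (4 * Q + 4) (UU j₀ i) v) =
      BB Q j₀ s i * Real.exp (-(UU j₀ i * t⁻¹)) / t ^ (4 * Q + 4) := by
    intro i
    rw [integral_const_mul, ((h1 (4 * Q + 4) hk).2.2 (UU j₀ i) t (UU_nonneg _ _) ht).2,
      div_eq_mul_inv (UU j₀ i) t]
    ring
  have heq : (fun v : ℝ => Real.exp (-(v * t)) * Bf2 Q j₀ s y f j v) = fun v : ℝ =>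
      (Real.exp (-(v * t)) * Bf Q j₀ y f j v +
        BB Q j₀ s j * (Real.exp (-(v * t)) * KK (4 * Q + 4) (UU j₀ j) v)) -
      BB Q j₀ s (j + 1) * (Real.exp (-(v * t)) * KK (4 * Q + 4) (UU j₀ (j + 1)) v) := by
    ext v
    unfold Bf2
    ring
  have hij : IntegrableOn (fun v : ℝ => Real.exp (-(v * t)) * Bf Q j₀ y f j v +
        BB Q j₀ s j * (Real.exp (-(v * t)) * KK (4 * Q + 4) (UU j₀ j) v)) (Set.Ioi 0) :=
    hi.add (hU j)
  rw [heq]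
  refine ⟨hij.sub (hU (j + 1)), ?_⟩
  rw [integral_sub hij (hU (j + 1))]
  have h3 : ∫ v in Set.Ioi (0:ℝ), (Real.exp (-(v * t)) * Bf Q j₀ y f j v +
        BB Q j₀ s j * (Real.exp (-(v * t)) * KK (4 * Q + 4) (UU j₀ j) v)) =
      (∫ v in Set.Ioi (0:ℝ), Real.exp (-(v * t)) * Bf Q j₀ y f j v) +
      ∫ v in Set.Ioi (0:ℝ), BB Q j₀ s j * (Real.exp (-(v * t)) * KK (4 * Q + 4) (UU j₀ j) v) :=
    integral_add hi (hU j)
  rw [h3, he, hUe, hUe]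
  ring

theorem BB_start {Q j₀ : ℕ} {s : ℕ → ℝ} (h : Frc2 Q j₀ s) : BB Q j₀ s j₀ = 0 := by
  unfold BB
  refine Finset.sum_eq_zero fun n hn => ?_
  have hn' := (Finset.mem_Icc.mp hn).2
  have : s n = 0 := by
    by_contra hne
    exact absurd (h.supp n hne).2 (not_lt.mpr hn')
  rw [this, zero_mul]

theorem UU_sq (j₀ j : ℕ) : UU j₀ j ^ 2 = (j : ℝ) / j₀ := by
  unfold UU
  exact Real.sq_sqrt (by positivity)

theorem BB_tendsto {Q j₀ : ℕ} {s : ℕ → ℝ} (hj : 1 ≤ j₀) (hQ : 1 ≤ Q) (h : Frc2 Q j₀ s) (c : ℝ)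
    (hc : 0 < c) :
    Filter.Tendsto (fun m : ℕ => BB Q j₀ s (j₀ + m) * Real.exp (-(UU j₀ (j₀ + m) * c)))
      Filter.atTop (nhds 0) := by
  have hj' : (0:ℝ) < j₀ := by exact_mod_cast hj
  have h1 : Filter.Tendsto (fun x : ℝ => x ^ (4 * Q) * Real.exp (-x)) Filter.atTop (nhds 0) :=
    Real.tendsto_pow_mul_exp_neg_atTop_nhds_zero (4 * Q)
  have h2 : Filter.Tendsto (fun m : ℕ => UU j₀ (j₀ + m) * c) Filter.atTop Filter.atTop :=
    (UU_tendsto j₀ hj).atTop_mul_const hc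
  have h3 := (h1.comp h2).const_mul (1 / 4 * (j₀ : ℝ) ^ (2 * Q - 1) / c ^ (4 * Q))
  rw [mul_zero] at h3
  refine squeeze_zero_norm (fun m => ?_) h3
  have h4 := h.bb (j₀ + m) (Nat.le_add_right _ _)
  rw [Real.norm_eq_abs, abs_mul, abs_of_pos (Real.exp_pos _)]
  refine (mul_le_mul_of_nonneg_right h4 (Real.exp_pos _).le).trans (le_of_eq ?_)
  have h5 : (((j₀ + m : ℕ) : ℝ)) = j₀ * UU j₀ (j₀ + m) ^ 2 := by
    rw [UU_sq]
    field_simp
  have h6 : (((j₀ + m : ℕ) : ℝ)) ^ (2 * Q - 1) * UU j₀ (j₀ + m) ^ 2 =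
      (j₀ : ℝ) ^ (2 * Q - 1) * UU j₀ (j₀ + m) ^ (4 * Q) := by
    rw [h5, mul_pow, ← pow_mul, mul_assoc, ← pow_add]
    congr 2
    omega
  simp only [Function.comp_apply]
  rw [mul_pow]
  have hcp : c ^ (4 * Q) ≠ 0 := by positivity
  have h7 : 1 / 4 * (((j₀ + m : ℕ) : ℝ)) ^ (2 * Q - 1) * UU j₀ (j₀ + m) ^ 2 =
      1 / 4 * ((j₀ : ℝ) ^ (2 * Q - 1) * UU j₀ (j₀ + m) ^ (4 * Q)) := by
    rw [← h6]; ring
  rw [h7]
  field_simp

/-- the basic identity: `t ^ k L(t) = Θ(1/t) - L(1/t)` -/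
theorem lap2 (h1 : TaskKer1) (h2 : TaskKer2) (Q j₀ : ℕ) (s y : ℕ → ℝ) (f : ℝ → ℝ) (hQ : 1 ≤ Q)
    (hj : 2 ≤ j₀) (hs : Frc2 Q j₀ s) (hsol : Sol2 Q j₀ s y f)
    (hC : ∃ C : ℝ, ∀ n : ℕ, 1 ≤ n → |cf y n| ≤ C * n) (t : ℝ) (ht : 0 < t) :
    t ^ (4 * Q + 4) * ∫ v in Set.Ioi (0:ℝ), Real.exp (-(v * t)) * f v =
      ∑' n : ℕ, E Q j₀ y t⁻¹ n - ∫ v in Set.Ioi (0:ℝ), Real.exp (-(v * t⁻¹)) * f v := by
  have hk : 1 ≤ 4 * Q + 4 := by omega
  have hj1 : 1 ≤ j₀ := by omega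
  have hf := hsol.cont
  have hfi : ∀ s : ℝ, 0 < s →
      IntegrableOn (fun v : ℝ => Real.exp (-(v * s)) * f v) (Set.Ioi 0) := by
    intro s hs
    obtain ⟨κ, hκ⟩ := hsol.bd
    exact intg f hf κ (4 * Q + 3) hκ s hs
  have hlim : ∀ s : ℝ, 0 < s → Filter.Tendsto
      (fun m : ℕ => ∫ u in (0:ℝ)..(UU j₀ (j₀ + m)), f u * Real.exp (-(u * s))) Filter.atTop
      (nhds (∫ v in Set.Ioi (0:ℝ), Real.exp (-(v * s)) * f v)) := by
    intro s hs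
    have h := intervalIntegral_tendsto_integral_Ioi 0 (hfi s hs) (UU_tendsto j₀ hj1)
    refine h.congr ?_
    intro m
    apply intervalIntegral.integral_congr
    intro u _
    simp only
    ring
  obtain ⟨M, hM, hMb⟩ := hsol.sumb
  -- the sum over the cells
  have hFi : ∀ i : ℕ, IntegrableOn
      (fun v : ℝ => Real.exp (-(v * t)) * Bf2 Q j₀ s y f (j₀ + i) v) (Set.Ioi 0) :=
    fun i => (lapB2 h1 h2 Q j₀ s y f hf (j₀ + i) t ht).1
  have hM0 : ∀ i, 0 ≤ M i := by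
    intro i
    have := hMb i 1 (by norm_num)
    simp only [one_pow, mul_one] at this
    exact le_trans (abs_nonneg _) this
  have hpow : IntegrableOn (fun v : ℝ => Real.exp (-(v * t)) * v ^ (8 * Q + 7)) (Set.Ioi 0) := by
    apply intg _ (by fun_prop) 1 (8 * Q + 7) _ t ht
    intro v hv
    rw [abs_of_nonneg (by positivity), one_mul]
    exact pow_le_pow_left₀ hv (by linarith) _
  have hnorm : Summable fun i : ℕ => ∫ v in Set.Ioi (0:ℝ),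
      ‖Real.exp (-(v * t)) * Bf2 Q j₀ s y f (j₀ + i) v‖ := by
    refine Summable.of_nonneg_of_le (fun i => ?_) (fun i => ?_)
      (hM.mul_right (∫ v in Set.Ioi (0:ℝ), Real.exp (-(v * t)) * v ^ (8 * Q + 7)))
    · exact integral_nonneg fun v => norm_nonneg _
    · rw [← integral_const_mul]
      refine setIntegral_mono_on (hFi i).norm (hpow.const_mul (M i)) measurableSet_Ioi ?_
      intro v hv
      have hv' : (0:ℝ) ≤ v := le_of_lt hv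
      rw [Real.norm_eq_abs, abs_mul, abs_of_pos (Real.exp_pos _)]
      calc Real.exp (-(v * t)) * |Bf2 Q j₀ s y f (j₀ + i) v|
          ≤ Real.exp (-(v * t)) * (M i * v ^ (8 * Q + 7)) :=
            mul_le_mul_of_nonneg_left (hMb i v hv') (Real.exp_pos _).le
        _ = _ := by ring
  have hsum := hasSum_integral_of_summable_integral_norm hFi hnorm
  -- the integral of the sum
  obtain ⟨hi01, he01⟩ := fub h1 h2 (4 * Q + 4) hk f hf 0 1 le_rfl zero_le_one t ht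
  obtain ⟨hiK, heK⟩ := (h1 (4 * Q + 4) hk).2.2 (vv Q j₀ 1) t (vv_nonneg _ _ _) ht
  have hval : ∫ v in Set.Ioi (0:ℝ), ∑' i : ℕ, Real.exp (-(v * t)) * Bf2 Q j₀ s y f (j₀ + i) v =
      (∫ v in Set.Ioi (0:ℝ), Real.exp (-(v * t)) * f v) -
        (vv Q j₀ 1) ^ 2 * (Real.exp (-(vv Q j₀ 1 / t)) / t ^ (4 * Q + 4)) +
        (∫ u in (0:ℝ)..1, f u * Real.exp (-(u * t⁻¹))) / t ^ (4 * Q + 4) := by
    have hA1 : Integrable (fun v : ℝ => Real.exp (-(v * t)) * f v -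
        (vv Q j₀ 1) ^ 2 * (Real.exp (-(v * t)) * KK (4 * Q + 4) (vv Q j₀ 1) v))
        (volume.restrict (Set.Ioi 0)) := (hfi t ht).sub (hiK.const_mul _)
    rw [← he01, ← heK, ← integral_const_mul, ← integral_sub (hfi t ht) (hiK.const_mul _),
      ← integral_add hA1 hi01]
    apply setIntegral_congr_fun measurableSet_Ioi
    intro v hv
    have hv' : (0:ℝ) ≤ v := le_of_lt hv
    simp only
    rw [tsum_mul_left, hsol.eq v hv']
    ring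
  rw [hval] at hsum
  have htend := hsum.tendsto_sum_nat
  have hpart : ∀ m : ℕ, ∑ i ∈ range m, (∫ v in Set.Ioi (0:ℝ),
      Real.exp (-(v * t)) * Bf2 Q j₀ s y f (j₀ + i) v) =
      ((∑ n ∈ range ((j₀ + m) ^ (2 * Q) + 1), E Q j₀ y t⁻¹ n) -
        (vv Q j₀ 1) ^ 2 * Real.exp (-(vv Q j₀ 1 * t⁻¹)) -
        ((∫ u in (0:ℝ)..(UU j₀ (j₀ + m)), f u * Real.exp (-(u * t⁻¹))) -
          ∫ u in (0:ℝ)..1, f u * Real.exp (-(u * t⁻¹))) -
        BB Q j₀ s (j₀ + m) * Real.exp (-(UU j₀ (j₀ + m) * t⁻¹))) / t ^ (4 * Q + 4) := by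
    intro m
    have hc : Continuous fun u : ℝ => f u * Real.exp (-(u * t⁻¹)) := by fun_prop
    have hadj := intervalIntegral.sum_integral_adjacent_intervals
      (f := fun u : ℝ => f u * Real.exp (-(u * t⁻¹))) (μ := volume)
      (a := fun i : ℕ => UU j₀ (j₀ + i)) (n := m) (fun i _ => hc.intervalIntegrable _ _)
    simp only [add_zero] at hadj
    rw [UU_self j₀ hj1] at hadj
    have hsub := intervalIntegral.integral_interval_sub_left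
      (f := fun u : ℝ => f u * Real.exp (-(u * t⁻¹))) (μ := volume)
      (a := 0) (b := UU j₀ (j₀ + m)) (c := 1) (hc.intervalIntegrable _ _) (hc.intervalIntegrable _ _)
    have htel : ∑ i ∈ range m, (BB Q j₀ s (j₀ + i) * Real.exp (-(UU j₀ (j₀ + i) * t⁻¹)) -
        BB Q j₀ s (j₀ + i + 1) * Real.exp (-(UU j₀ (j₀ + i + 1) * t⁻¹))) =
        - (BB Q j₀ s (j₀ + m) * Real.exp (-(UU j₀ (j₀ + m) * t⁻¹))) := by
      have h := Finset.sum_range_sub'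
        (fun i : ℕ => BB Q j₀ s (j₀ + i) * Real.exp (-(UU j₀ (j₀ + i) * t⁻¹))) m
      rw [add_zero, BB_start hs, zero_mul, zero_sub] at h
      exact h
    rw [hsub, ← sum_cells Q j₀ y t⁻¹ hj1 hsol.low m, ← hadj]
    rw [Finset.sum_congr rfl (fun i _ => (lapB2 h1 h2 Q j₀ s y f hf (j₀ + i) t ht).2),
      ← Finset.sum_div, Finset.sum_add_distrib, Finset.sum_sub_distrib, htel]
    congr 1
    have : ∑ i ∈ range m, ∫ u in (UU j₀ (j₀ + i))..(UU j₀ (j₀ + i + 1)),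
        f u * Real.exp (-(u * t⁻¹)) = ∑ i ∈ range m, ∫ u in (UU j₀ (j₀ + i))..(UU j₀ (j₀ + (i + 1))),
        f u * Real.exp (-(u * t⁻¹)) := rfl
    rw [this]
    ring
  have hlim2 : Filter.Tendsto (fun m : ℕ => ∑ i ∈ range m, (∫ v in Set.Ioi (0:ℝ),
      Real.exp (-(v * t)) * Bf2 Q j₀ s y f (j₀ + i) v)) Filter.atTop
      (nhds (((∑' n : ℕ, E Q j₀ y t⁻¹ n) -
        (vv Q j₀ 1) ^ 2 * Real.exp (-(vv Q j₀ 1 * t⁻¹)) -
        ((∫ v in Set.Ioi (0:ℝ), Real.exp (-(v * t⁻¹)) * f v) -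
          ∫ u in (0:ℝ)..1, f u * Real.exp (-(u * t⁻¹))) - 0) / t ^ (4 * Q + 4))) := by
    simp only [hpart]
    apply Filter.Tendsto.div_const
    refine Filter.Tendsto.sub ?_ (BB_tendsto hj1 hQ hs t⁻¹ (inv_pos.mpr ht))
    apply Filter.Tendsto.sub
    · apply Filter.Tendsto.sub_const
      have hE := (sumE Q j₀ y hQ hj1 hC t⁻¹ (inv_pos.mpr ht)).hasSum.tendsto_sum_nat
      refine hE.comp ?_
      refine Filter.tendsto_atTop_mono (fun m => ?_) Filter.tendsto_id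
      have h3 : j₀ + m ≤ (j₀ + m) ^ (2 * Q) := Nat.le_self_pow (by omega) _
      simp only [id]
      omega
    · apply Filter.Tendsto.sub_const
      exact hlim t⁻¹ (inv_pos.mpr ht)
  have huniq := tendsto_nhds_unique htend hlim2
  have htk : t ^ (4 * Q + 4) ≠ 0 := by positivity
  rw [div_eq_mul_inv (vv Q j₀ 1) t, sub_zero] at huniq
  clear htend hlim2 hsum hpart hval
  generalize (∫ v in Set.Ioi (0:ℝ), Real.exp (-(v * t)) * f v) = X at huniq ⊢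
  generalize (∫ v in Set.Ioi (0:ℝ), Real.exp (-(v * t⁻¹)) * f v) = X2 at huniq ⊢
  generalize (∑' n : ℕ, E Q j₀ y t⁻¹ n) = Sg at huniq ⊢
  generalize (∫ u in (0:ℝ)..1, f u * Real.exp (-(u * t⁻¹))) = I at huniq
  generalize Real.exp (-(vv Q j₀ 1 * t⁻¹)) = e at huniq
  generalize t ^ (4 * Q + 4) = T at huniq htk ⊢
  field_simp at huniq
  linarith

theorem theta2 (h1 : TaskKer1) (h2 : TaskKer2) (Q j₀ : ℕ) (s y : ℕ → ℝ) (f : ℝ → ℝ) (hQ : 1 ≤ Q)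
    (hj : 2 ≤ j₀) (hs : Frc2 Q j₀ s) (hsol : Sol2 Q j₀ s y f)
    (hC : ∃ C : ℝ, ∀ n : ℕ, 1 ≤ n → |cf y n| ≤ C * n) (t : ℝ) (ht : 0 < t) :
    ∑' n : ℕ, cf y n * (vv Q j₀ n) ^ 2 * Real.exp (-(vv Q j₀ n / t)) =
      t ^ (4 * Q + 4) * ∑' n : ℕ, cf y n * (vv Q j₀ n) ^ 2 * Real.exp (-(vv Q j₀ n * t)) := by
  have hA := lap2 h1 h2 Q j₀ s y f hQ hj hs hsol hC t ht
  have hB := lap2 h1 h2 Q j₀ s y f hQ hj hs hsol hC t⁻¹ (inv_pos.mpr ht)
  rw [inv_inv] at hB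
  have htk : t ^ (4 * Q + 4) ≠ 0 := by positivity
  have hB' : ∫ v in Set.Ioi (0:ℝ), Real.exp (-(v * t⁻¹)) * f v =
      t ^ (4 * Q + 4) * (∑' n : ℕ, E Q j₀ y t n - ∫ v in Set.Ioi (0:ℝ), Real.exp (-(v * t)) * f v) := by
    rw [← hB, inv_pow, ← mul_assoc, mul_inv_cancel₀ htk, one_mul]
  have hfin : ∑' n : ℕ, E Q j₀ y t⁻¹ n = t ^ (4 * Q + 4) * ∑' n : ℕ, E Q j₀ y t n := by
    linarith
  have e1 : ∀ n : ℕ, cf y n * (vv Q j₀ n) ^ 2 * Real.exp (-(vv Q j₀ n / t)) = E Q j₀ y t⁻¹ n := by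
    intro n
    rw [E, div_eq_mul_inv]
  simp only [e1]
  exact hfin

theorem cf_le_one {y : ℕ → ℝ} (hy : ∀ p : ℕ, p.Prime → |y p| ≤ 1) (n : ℕ) : |cf y n| ≤ 1 := by
  unfold cf
  split_ifs with hs
  · rw [Finset.abs_prod]
    exact Finset.prod_le_one (fun _ _ => abs_nonneg _)
      fun p hp => hy p (Nat.prime_of_mem_primeFactors hp)
  · rw [abs_zero]
    exact zero_le_one

theorem taskSel2 : TaskSel2 := by
  intro Q j₀ s y f hQ hj hs hsol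
  have hK1 : TaskKer1 := Pool.Agent.H589R3.BC.taskKer1
  have hK2 : TaskKer2 := Pool.Agent.H553R3.BC.taskKer2
  have h1 : ∀ n : ℕ, 1 ≤ n → |cf y n| ≤ 1 := fun n _ => cf_le_one hsol.small n
  have hlin : ∃ C : ℝ, ∀ n : ℕ, 1 ≤ n → |cf y n| ≤ C * n := by
    refine ⟨1, fun n hn => (h1 n hn).trans ?_⟩
    rw [one_mul]
    exact_mod_cast hn
  have hth := theta2 hK1 hK2 Q j₀ s y f hQ (by omega) hs hsol hlin
  refine Pool.Agent.H335R3.ETSelB.taskSelB Q j₀ y hQ (by omega) ?_ ?_ hth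
  · intro ε hε
    refine ⟨1, fun n hn => (h1 n hn).trans ?_⟩
    rw [one_mul]
    exact Real.one_le_rpow (by exact_mod_cast hn) hε.le
  · intro p hp
    exact (hsol.small p hp).trans (Real.one_le_rpow (by exact_mod_cast hp.one_le) (by norm_num))

end Pool.Agent.W177.LV
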